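import Pool.Agent.Helper29.TL.HBase

set_option autoImplicit false

/-! `{3,3,3,5}` -/

namespace TL

open TL.Geo TL.H29

theorem H3335_thm (hP : S_PING) : S_H3335 := by
  intro G _ M cs h01 h12 h23 h34 h02 h03 h04 h13 h14 h24
  have h : P5 M 1 1 1 gr := ⟨cc_three h01, cc_three h12, cc_three h23, cc_five h34, cc_two h02, cc_two h03, cc_two h04, cc_two h13, cc_two h14, cc_two h24⟩
  have hf := gr_sq
  have hr := rt_sq
  have f1 := gr_gt
  have f2 := gr_lt
  have r1 := rt_gt
  have r2 := rt_lt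
  have e0 : geo cs (cs.wordProd [3, 4, 1, 2, 3, 4, 3, 2, 1]) (ee 0) = ![1, 1 + gr, 1 + gr, 1 + 2 * gr, 1 + gr] := by
    rw [geo_wordProd]
    simp only [List.map_cons, List.map_nil, List.prod_cons, List.prod_nil, Module.End.mul_apply,
      Module.End.one_apply, ee5_0]
    rw [h.s1 (a := 1) (b := 0) (c := 0) (d := 0) (x := 0) (b' := 1) (by ring),
      h.s2 (a := 1) (b := 1) (c := 0) (d := 0) (x := 0) (c' := 1) (by ring),
      h.s3 (a := 1) (b := 1) (c := 1) (d := 0) (x := 0) (d' := 1) (by ring),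
      h.s4 (a := 1) (b := 1) (c := 1) (d := 1) (x := 0) (x' := gr) (by ring),
      h.s3 (a := 1) (b := 1) (c := 1) (d := 1) (x := gr) (d' := 1 + gr) (by linear_combination (1) * hf),
      h.s2 (a := 1) (b := 1) (c := 1) (d := 1 + gr) (x := gr) (c' := 1 + gr) (by ring),
      h.s1 (a := 1) (b := 1) (c := 1 + gr) (d := 1 + gr) (x := gr) (b' := 1 + gr) (by ring),
      h.s4 (a := 1) (b := 1 + gr) (c := 1 + gr) (d := 1 + gr) (x := gr) (x' := 1 + gr) (by linear_combination (1) * hf),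
      h.s3 (a := 1) (b := 1 + gr) (c := 1 + gr) (d := 1 + gr) (x := 1 + gr) (d' := 1 + 2 * gr) (by linear_combination (1) * hf)]
  have e1 : geo cs (cs.wordProd [4, 3, 4, 0, 1, 2, 3, 4, 3, 2]) (ee 1) = ![gr, gr, 1 + gr, 1 + 2 * gr, 1 + 2 * gr] := by
    rw [geo_wordProd]
    simp only [List.map_cons, List.map_nil, List.prod_cons, List.prod_nil, Module.End.mul_apply,
      Module.End.one_apply, ee5_1]
    rw [h.s2 (a := 0) (b := 1) (c := 0) (d := 0) (x := 0) (c' := 1) (by ring),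
      h.s3 (a := 0) (b := 1) (c := 1) (d := 0) (x := 0) (d' := 1) (by ring),
      h.s4 (a := 0) (b := 1) (c := 1) (d := 1) (x := 0) (x' := gr) (by ring),
      h.s3 (a := 0) (b := 1) (c := 1) (d := 1) (x := gr) (d' := 1 + gr) (by linear_combination (1) * hf),
      h.s2 (a := 0) (b := 1) (c := 1) (d := 1 + gr) (x := gr) (c' := 1 + gr) (by ring),
      h.s1 (a := 0) (b := 1) (c := 1 + gr) (d := 1 + gr) (x := gr) (b' := gr) (by ring),
      h.s0 (a := 0) (b := gr) (c := 1 + gr) (d := 1 + gr) (x := gr) (a' := gr) (by ring),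
      h.s4 (a := gr) (b := gr) (c := 1 + gr) (d := 1 + gr) (x := gr) (x' := 1 + gr) (by linear_combination (1) * hf),
      h.s3 (a := gr) (b := gr) (c := 1 + gr) (d := 1 + gr) (x := 1 + gr) (d' := 1 + 2 * gr) (by linear_combination (1) * hf),
      h.s4 (a := gr) (b := gr) (c := 1 + gr) (d := 1 + 2 * gr) (x := 1 + gr) (x' := 1 + 2 * gr) (by linear_combination (2) * hf)]
  have e2 : geo cs (cs.wordProd [2, 3, 4, 3, 4, 1, 2, 3, 4, 3, 2]) (ee 1) = ![0, gr, 1 + 2 * gr, 2 + 2 * gr, 1 + 2 * gr] := by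
    rw [geo_wordProd]
    simp only [List.map_cons, List.map_nil, List.prod_cons, List.prod_nil, Module.End.mul_apply,
      Module.End.one_apply, ee5_1]
    rw [h.s2 (a := 0) (b := 1) (c := 0) (d := 0) (x := 0) (c' := 1) (by ring),
      h.s3 (a := 0) (b := 1) (c := 1) (d := 0) (x := 0) (d' := 1) (by ring),
      h.s4 (a := 0) (b := 1) (c := 1) (d := 1) (x := 0) (x' := gr) (by ring),
      h.s3 (a := 0) (b := 1) (c := 1) (d := 1) (x := gr) (d' := 1 + gr) (by linear_combination (1) * hf),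
      h.s2 (a := 0) (b := 1) (c := 1) (d := 1 + gr) (x := gr) (c' := 1 + gr) (by ring),
      h.s1 (a := 0) (b := 1) (c := 1 + gr) (d := 1 + gr) (x := gr) (b' := gr) (by ring),
      h.s4 (a := 0) (b := gr) (c := 1 + gr) (d := 1 + gr) (x := gr) (x' := 1 + gr) (by linear_combination (1) * hf),
      h.s3 (a := 0) (b := gr) (c := 1 + gr) (d := 1 + gr) (x := 1 + gr) (d' := 1 + 2 * gr) (by linear_combination (1) * hf),
      h.s4 (a := 0) (b := gr) (c := 1 + gr) (d := 1 + 2 * gr) (x := 1 + gr) (x' := 1 + 2 * gr) (by linear_combination (2) * hf),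
      h.s3 (a := 0) (b := gr) (c := 1 + gr) (d := 1 + 2 * gr) (x := 1 + 2 * gr) (d' := 2 + 2 * gr) (by linear_combination (2) * hf),
      h.s2 (a := 0) (b := gr) (c := 1 + gr) (d := 2 + 2 * gr) (x := 1 + 2 * gr) (c' := 1 + 2 * gr) (by ring)]
  refine ping3 hP cs _ _ _ _ _ _ _ _ _ e0 e1 e2 ?_ ?_ ?_ ?_ ?_ ?_
  · rw [h.bb]
    refine le_trans (b := -1 / 2 - 1 / 2 * gr) (le_of_eq (by linear_combination (-2 - 3 * gr) * hf)) (by nlinarith)
  · rw [h.bb]
    refine le_trans (b := -1 / 2 - 1 / 2 * gr) (le_of_eq (by linear_combination (-5 / 2 - 3 * gr) * hf)) (by nlinarith)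
  · rw [h.bb]
    refine le_trans (b := -1 / 2 - 1 / 2 * gr) (le_of_eq (by linear_combination (-3 - 4 * gr) * hf)) (by nlinarith)
  · simp only [Fin.sum_univ_five]
    simp
    nlinarith
  · simp only [Fin.sum_univ_five]
    simp
    nlinarith
  · simp only [Fin.sum_univ_five]
    simp
    nlinarith

end TL
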