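import Pool.Agent.Helper29.TL.HBase

set_option autoImplicit false

/-! `{4,3,5}` -/

namespace TL

open TL.Geo TL.H29

theorem H435_thm (hP : S_PING) : S_H435 := by
  intro G _ M cs h01 h12 h23 h02 h03 h13
  have h : P4 M (√2) 1 gr := ⟨cc_four h01, cc_three h12, cc_five h23, cc_two h02, cc_two h03, cc_two h13⟩
  have hf := gr_sq
  have hr := rt_sq
  have f1 := gr_gt
  have f2 := gr_lt
  have r1 := rt_gt
  have r2 := rt_lt
  have e0 : geo cs (cs.wordProd [3, 2, 1]) (ee 0) = ![1, √2, √2, gr * √2] := by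
    rw [geo_wordProd]
    simp only [List.map_cons, List.map_nil, List.prod_cons, List.prod_nil, Module.End.mul_apply,
      Module.End.one_apply, ee4_0]
    rw [h.s1 (a := 1) (b := 0) (c := 0) (d := 0) (b' := √2) (by ring),
      h.s2 (a := 1) (b := √2) (c := 0) (d := 0) (c' := √2) (by ring),
      h.s3 (a := 1) (b := √2) (c := √2) (d := 0) (d' := gr * √2) (by ring)]
  have e1 : geo cs (cs.wordProd [1, 2, 0]) (ee 1) = ![√2, 2, 1, 0] := by
    rw [geo_wordProd]
    simp only [List.map_cons, List.map_nil, List.prod_cons, List.prod_nil, Module.End.mul_apply,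
      Module.End.one_apply, ee4_1]
    rw [h.s0 (a := 0) (b := 1) (c := 0) (d := 0) (a' := √2) (by ring),
      h.s2 (a := √2) (b := 1) (c := 0) (d := 0) (c' := 1) (by ring),
      h.s1 (a := √2) (b := 1) (c := 1) (d := 0) (b' := 2) (by linear_combination (1) * hr)]
  have e2 : geo cs (cs.wordProd [2, 3, 2, 1]) (ee 0) = ![1, √2, √2 + gr * √2, gr * √2] := by
    rw [geo_wordProd]
    simp only [List.map_cons, List.map_nil, List.prod_cons, List.prod_nil, Module.End.mul_apply,
      Module.End.one_apply, ee4_0]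
    rw [h.s1 (a := 1) (b := 0) (c := 0) (d := 0) (b' := √2) (by ring),
      h.s2 (a := 1) (b := √2) (c := 0) (d := 0) (c' := √2) (by ring),
      h.s3 (a := 1) (b := √2) (c := √2) (d := 0) (d' := gr * √2) (by ring),
      h.s2 (a := 1) (b := √2) (c := √2) (d := gr * √2) (c' := √2 + gr * √2) (by linear_combination (√2) * hf)]
  refine ping3 hP cs _ _ _ _ _ _ _ _ _ e0 e1 e2 ?_ ?_ ?_ ?_ ?_ ?_
  · rw [h.bb]
    refine le_trans (b := -1 / 2 * gr * √2) (le_of_eq (by linear_combination (-1 / 2 * √2) * hf + (-1 / 2 * √2) * hr)) (by nlinarith)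
  · rw [h.bb]
    refine le_trans (b := -gr) (le_of_eq (by linear_combination (-1 / 2 * √2 ^ 2 - 1 / 2 * gr * √2 ^ 2) * hf + (-1 / 2 - 1 / 2 * gr) * hr)) (by nlinarith)
  · rw [h.bb]
    refine le_trans (b := -1 / 2 * gr * √2) (le_of_eq (by linear_combination (-1 / 2 * √2) * hf + (-1 / 2 * √2) * hr)) (by nlinarith)
  · simp only [Fin.sum_univ_four]
    simp
    nlinarith
  · simp only [Fin.sum_univ_four]
    simp
    nlinarith
  · simp only [Fin.sum_univ_four]
    simp
    nlinarith

end TL
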