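import Pool.Agent.Helper29.TL.HBase

set_option autoImplicit false

/-! `{5,3,5}` -/

namespace TL

open TL.Geo TL.H29

theorem H535_thm (hP : S_PING) : S_H535 := by
  intro G _ M cs h01 h12 h23 h02 h03 h13
  have h : P4 M gr 1 gr := ⟨cc_five h01, cc_three h12, cc_five h23, cc_two h02, cc_two h03, cc_two h13⟩
  have hf := gr_sq
  have hr := rt_sq
  have f1 := gr_gt
  have f2 := gr_lt
  have r1 := rt_gt
  have r2 := rt_lt
  have e0 : geo cs (cs.wordProd [2]) (ee 1) = ![0, 1, 1, 0] := by
    rw [geo_wordProd]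
    simp only [List.map_cons, List.map_nil, List.prod_cons, List.prod_nil, Module.End.mul_apply,
      Module.End.one_apply, ee4_1]
    rw [h.s2 (a := 0) (b := 1) (c := 0) (d := 0) (c' := 1) (by ring)]
  have e1 : geo cs (cs.wordProd [3, 2, 1]) (ee 0) = ![1, gr, gr, 1 + gr] := by
    rw [geo_wordProd]
    simp only [List.map_cons, List.map_nil, List.prod_cons, List.prod_nil, Module.End.mul_apply,
      Module.End.one_apply, ee4_0]
    rw [h.s1 (a := 1) (b := 0) (c := 0) (d := 0) (b' := gr) (by ring),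
      h.s2 (a := 1) (b := gr) (c := 0) (d := 0) (c' := gr) (by ring),
      h.s3 (a := 1) (b := gr) (c := gr) (d := 0) (d' := 1 + gr) (by linear_combination (1) * hf)]
  have e2 : geo cs (cs.wordProd [0, 1, 2]) (ee 3) = ![1 + gr, gr, gr, 1] := by
    rw [geo_wordProd]
    simp only [List.map_cons, List.map_nil, List.prod_cons, List.prod_nil, Module.End.mul_apply,
      Module.End.one_apply, ee4_3]
    rw [h.s2 (a := 0) (b := 0) (c := 0) (d := 1) (c' := gr) (by ring),
      h.s1 (a := 0) (b := 0) (c := gr) (d := 1) (b' := gr) (by ring),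
      h.s0 (a := 0) (b := gr) (c := gr) (d := 1) (a' := 1 + gr) (by linear_combination (1) * hf)]
  refine ping3 hP cs _ _ _ _ _ _ _ _ _ e0 e1 e2 ?_ ?_ ?_ ?_ ?_ ?_
  · rw [h.bb]
    refine le_trans (b := -1 / 2 - 1 / 2 * gr) (le_of_eq (by linear_combination (-1 / 2) * hf)) (by nlinarith)
  · rw [h.bb]
    refine le_trans (b := -1 / 2 - 1 / 2 * gr) (le_of_eq (by linear_combination (-1 / 2) * hf)) (by nlinarith)
  · rw [h.bb]
    refine le_trans (b := -gr) (le_of_eq (by linear_combination (-2 - gr) * hf)) (by nlinarith)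
  · simp only [Fin.sum_univ_four]
    simp
  · simp only [Fin.sum_univ_four]
    simp
    nlinarith
  · simp only [Fin.sum_univ_four]
    simp
    nlinarith

end TL
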