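import Pool.Agent.Helper22.TL.Spec

set_option autoImplicit false

/-! Base for the compact hyperbolic symbols: reflections in coordinates. -/

namespace TL.H29

open TL TL.Geo

lemma bb_symm {B : Type} [Fintype B] (M : CoxeterMatrix B) (u v : B → ℝ) :
    bb M u v = bb M v u := by
  unfold bb
  rw [Finset.sum_comm]
  refine Finset.sum_congr rfl fun i _ => Finset.sum_congr rfl fun j _ => ?_
  rw [cc_symm M j i]
  ring

lemma ping3 (hP : S_PING) {n : ℕ} {G : Type} [Group G] {M : CoxeterMatrix (Fin n)}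
    (cs : CoxeterSystem M G) (w0 w1 w2 : List (Fin n)) (i0 i1 i2 : Fin n) (v0 v1 v2 : Fin n → ℝ)
    (h0 : geo cs (cs.wordProd w0) (ee i0) = v0) (h1 : geo cs (cs.wordProd w1) (ee i1) = v1)
    (h2 : geo cs (cs.wordProd w2) (ee i2) = v2) (b01 : bb M v0 v1 ≤ -1) (b02 : bb M v0 v2 ≤ -1)
    (b12 : bb M v1 v2 ≤ -1) (p0 : 0 < ∑ i, v0 i) (p1 : 0 < ∑ i, v1 i) (p2 : 0 < ∑ i, v2 i) :
    ¬ PG cs.simple := by
  apply hP n G M cs ![w0, w1, w2] ![i0, i1, i2]
  · intro k l hkl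
    fin_cases k <;> fin_cases l
    · exact absurd rfl hkl
    · show bb M (geo cs (cs.wordProd w0) (ee i0)) (geo cs (cs.wordProd w1) (ee i1)) ≤ -1
      rw [h0, h1]; exact b01
    · show bb M (geo cs (cs.wordProd w0) (ee i0)) (geo cs (cs.wordProd w2) (ee i2)) ≤ -1
      rw [h0, h2]; exact b02
    · show bb M (geo cs (cs.wordProd w1) (ee i1)) (geo cs (cs.wordProd w0) (ee i0)) ≤ -1
      rw [h0, h1, bb_symm]; exact b01
    · exact absurd rfl hkl
    · show bb M (geo cs (cs.wordProd w1) (ee i1)) (geo cs (cs.wordProd w2) (ee i2)) ≤ -1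
      rw [h1, h2]; exact b12
    · show bb M (geo cs (cs.wordProd w2) (ee i2)) (geo cs (cs.wordProd w0) (ee i0)) ≤ -1
      rw [h0, h2, bb_symm]; exact b02
    · show bb M (geo cs (cs.wordProd w2) (ee i2)) (geo cs (cs.wordProd w1) (ee i1)) ≤ -1
      rw [h1, h2, bb_symm]; exact b12
    · exact absurd rfl hkl
  · intro k
    fin_cases k
    · show 0 < ∑ i, geo cs (cs.wordProd w0) (ee i0) i
      rw [h0]; exact p0
    · show 0 < ∑ i, geo cs (cs.wordProd w1) (ee i1) i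
      rw [h1]; exact p1
    · show 0 < ∑ i, geo cs (cs.wordProd w2) (ee i2) i
      rw [h2]; exact p2

lemma sg_coord {n : ℕ} (M : CoxeterMatrix (Fin n)) (i j : Fin n) (v : Fin n → ℝ) :
    sg M i v j = if j = i then v i + ∑ k, 2 * cc M i k * v k else v j := by
  rw [sg_apply]
  simp only [Pi.sub_apply, Pi.smul_apply, ee, smul_eq_mul, Pi.single_apply, mul_ite, mul_one,
    mul_zero]
  split_ifs with h
  · rw [h, coroot, LinearMap.sum_apply]
    simp only [LinearMap.smul_apply, LinearMap.proj_apply, smul_eq_mul]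
    rw [sub_eq_add_neg, ← Finset.sum_neg_distrib]
    congr 1
    refine Finset.sum_congr rfl fun k _ => ?_
    ring
  · ring

/-- entries of a string Coxeter matrix of rank four (`p = 2 cos`) -/
structure P4 (M : CoxeterMatrix (Fin 4)) (p q r : ℝ) : Prop where
  c01 : cc M 0 1 = p / 2
  c12 : cc M 1 2 = q / 2
  c23 : cc M 2 3 = r / 2
  c02 : cc M 0 2 = 0
  c03 : cc M 0 3 = 0
  c13 : cc M 1 3 = 0

section four

variable {M : CoxeterMatrix (Fin 4)} {p q r : ℝ}

lemma P4.c10 (h : P4 M p q r) : cc M 1 0 = p / 2 := by rw [cc_symm]; exact h.c01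
lemma P4.c21 (h : P4 M p q r) : cc M 2 1 = q / 2 := by rw [cc_symm]; exact h.c12
lemma P4.c32 (h : P4 M p q r) : cc M 3 2 = r / 2 := by rw [cc_symm]; exact h.c23
lemma P4.c20 (h : P4 M p q r) : cc M 2 0 = 0 := by rw [cc_symm]; exact h.c02
lemma P4.c30 (h : P4 M p q r) : cc M 3 0 = 0 := by rw [cc_symm]; exact h.c03
lemma P4.c31 (h : P4 M p q r) : cc M 3 1 = 0 := by rw [cc_symm]; exact h.c13

lemma P4.s0 (h : P4 M p q r) {a b c d a' : ℝ} (e : -a + p * b = a') :
    sg M 0 ![a, b, c, d] = ![a', b, c, d] := by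
  funext j
  rw [sg_coord, Fin.sum_univ_four]
  fin_cases j
  · simp [h.c01, h.c02, h.c03]
    linarith
  · simp
  · simp
  · simp

lemma P4.s1 (h : P4 M p q r) {a b c d b' : ℝ} (e : -b + p * a + q * c = b') :
    sg M 1 ![a, b, c, d] = ![a, b', c, d] := by
  funext j
  rw [sg_coord, Fin.sum_univ_four]
  fin_cases j
  · simp
  · simp [h.c10, h.c12, h.c13]
    linarith
  · simp
  · simp

lemma P4.s2 (h : P4 M p q r) {a b c d c' : ℝ} (e : -c + q * b + r * d = c') :
    sg M 2 ![a, b, c, d] = ![a, b, c', d] := by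
  funext j
  rw [sg_coord, Fin.sum_univ_four]
  fin_cases j
  · simp
  · simp
  · simp [h.c20, h.c21, h.c23]
    linarith
  · simp

lemma P4.s3 (h : P4 M p q r) {a b c d d' : ℝ} (e : -d + r * c = d') :
    sg M 3 ![a, b, c, d] = ![a, b, c, d'] := by
  funext j
  rw [sg_coord, Fin.sum_univ_four]
  fin_cases j
  · simp
  · simp
  · simp
  · simp [h.c30, h.c31, h.c32]
    linarith

lemma P4.bb (h : P4 M p q r) (a b c d a' b' c' d' : ℝ) :
    bb M ![a, b, c, d] ![a', b', c', d'] = a * a' + b * b' + c * c' + d * d' -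
      p / 2 * (a * b' + b * a') - q / 2 * (b * c' + c * b') - r / 2 * (c * d' + d * c') := by
  unfold TL.bb
  simp only [Fin.sum_univ_four, h.c01, h.c02, h.c03, h.c10, h.c12, h.c13, h.c20, h.c21, h.c23,
    h.c30, h.c31, h.c32, cc_self]
  simp
  ring

lemma ee4_0 : (ee (0 : Fin 4) : Fin 4 → ℝ) = ![1, 0, 0, 0] := by
  funext j; fin_cases j <;> simp [ee]
lemma ee4_1 : (ee (1 : Fin 4) : Fin 4 → ℝ) = ![0, 1, 0, 0] := by
  funext j; fin_cases j <;> simp [ee]
lemma ee4_2 : (ee (2 : Fin 4) : Fin 4 → ℝ) = ![0, 0, 1, 0] := by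
  funext j; fin_cases j <;> simp [ee]
lemma ee4_3 : (ee (3 : Fin 4) : Fin 4 → ℝ) = ![0, 0, 0, 1] := by
  funext j; fin_cases j <;> simp [ee]

end four

/-- entries of a string Coxeter matrix of rank five (`p = 2 cos`) -/
structure P5 (M : CoxeterMatrix (Fin 5)) (p q r s : ℝ) : Prop where
  c01 : cc M 0 1 = p / 2
  c12 : cc M 1 2 = q / 2
  c23 : cc M 2 3 = r / 2
  c34 : cc M 3 4 = s / 2
  c02 : cc M 0 2 = 0
  c03 : cc M 0 3 = 0
  c04 : cc M 0 4 = 0
  c13 : cc M 1 3 = 0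
  c14 : cc M 1 4 = 0
  c24 : cc M 2 4 = 0

section five

variable {M : CoxeterMatrix (Fin 5)} {p q r s : ℝ}

lemma P5.c10 (h : P5 M p q r s) : cc M 1 0 = p / 2 := by rw [cc_symm]; exact h.c01
lemma P5.c21 (h : P5 M p q r s) : cc M 2 1 = q / 2 := by rw [cc_symm]; exact h.c12
lemma P5.c32 (h : P5 M p q r s) : cc M 3 2 = r / 2 := by rw [cc_symm]; exact h.c23
lemma P5.c43 (h : P5 M p q r s) : cc M 4 3 = s / 2 := by rw [cc_symm]; exact h.c34
lemma P5.c20 (h : P5 M p q r s) : cc M 2 0 = 0 := by rw [cc_symm]; exact h.c02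
lemma P5.c30 (h : P5 M p q r s) : cc M 3 0 = 0 := by rw [cc_symm]; exact h.c03
lemma P5.c40 (h : P5 M p q r s) : cc M 4 0 = 0 := by rw [cc_symm]; exact h.c04
lemma P5.c31 (h : P5 M p q r s) : cc M 3 1 = 0 := by rw [cc_symm]; exact h.c13
lemma P5.c41 (h : P5 M p q r s) : cc M 4 1 = 0 := by rw [cc_symm]; exact h.c14
lemma P5.c42 (h : P5 M p q r s) : cc M 4 2 = 0 := by rw [cc_symm]; exact h.c24

lemma P5.s0 (h : P5 M p q r s) {a b c d x a' : ℝ} (e : -a + p * b = a') :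
    sg M 0 ![a, b, c, d, x] = ![a', b, c, d, x] := by
  funext j
  rw [sg_coord, Fin.sum_univ_five]
  fin_cases j
  · simp [h.c01, h.c02, h.c03, h.c04]
    linarith
  all_goals simp

lemma P5.s1 (h : P5 M p q r s) {a b c d x b' : ℝ} (e : -b + p * a + q * c = b') :
    sg M 1 ![a, b, c, d, x] = ![a, b', c, d, x] := by
  funext j
  rw [sg_coord, Fin.sum_univ_five]
  fin_cases j
  · simp
  · simp [h.c10, h.c12, h.c13, h.c14]
    linarith
  all_goals simp

lemma P5.s2 (h : P5 M p q r s) {a b c d x c' : ℝ} (e : -c + q * b + r * d = c') :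
    sg M 2 ![a, b, c, d, x] = ![a, b, c', d, x] := by
  funext j
  rw [sg_coord, Fin.sum_univ_five]
  fin_cases j
  · simp
  · simp
  · simp [h.c20, h.c21, h.c23, h.c24]
    linarith
  all_goals simp

lemma P5.s3 (h : P5 M p q r s) {a b c d x d' : ℝ} (e : -d + r * c + s * x = d') :
    sg M 3 ![a, b, c, d, x] = ![a, b, c, d', x] := by
  funext j
  rw [sg_coord, Fin.sum_univ_five]
  fin_cases j
  · simp
  · simp
  · simp
  · simp [h.c30, h.c31, h.c32, h.c34]
    linarith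
  all_goals simp

lemma P5.s4 (h : P5 M p q r s) {a b c d x x' : ℝ} (e : -x + s * d = x') :
    sg M 4 ![a, b, c, d, x] = ![a, b, c, d, x'] := by
  funext j
  rw [sg_coord, Fin.sum_univ_five]
  fin_cases j
  · simp
  · simp
  · simp
  · simp
  · simp [h.c40, h.c41, h.c42, h.c43]
    linarith

lemma P5.bb (h : P5 M p q r s) (a b c d x a' b' c' d' x' : ℝ) :
    bb M ![a, b, c, d, x] ![a', b', c', d', x'] = a * a' + b * b' + c * c' + d * d' + x * x' -
      p / 2 * (a * b' + b * a') - q / 2 * (b * c' + c * b') - r / 2 * (c * d' + d * c') -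
      s / 2 * (d * x' + x * d') := by
  unfold TL.bb
  simp only [Fin.sum_univ_five, h.c01, h.c02, h.c03, h.c04, h.c10, h.c12, h.c13, h.c14, h.c20,
    h.c21, h.c23, h.c24, h.c30, h.c31, h.c32, h.c34, h.c40, h.c41, h.c42, h.c43, cc_self]
  simp
  ring

lemma ee5_0 : (ee (0 : Fin 5) : Fin 5 → ℝ) = ![1, 0, 0, 0, 0] := by
  funext j; fin_cases j <;> simp [ee]
lemma ee5_1 : (ee (1 : Fin 5) : Fin 5 → ℝ) = ![0, 1, 0, 0, 0] := by
  funext j; fin_cases j <;> simp [ee]
lemma ee5_2 : (ee (2 : Fin 5) : Fin 5 → ℝ) = ![0, 0, 1, 0, 0] := by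
  funext j; fin_cases j <;> simp [ee]
lemma ee5_3 : (ee (3 : Fin 5) : Fin 5 → ℝ) = ![0, 0, 0, 1, 0] := by
  funext j; fin_cases j <;> simp [ee]
lemma ee5_4 : (ee (4 : Fin 5) : Fin 5 → ℝ) = ![0, 0, 0, 0, 1] := by
  funext j; fin_cases j <;> simp [ee]

end five

lemma cc_two {B : Type} {M : CoxeterMatrix B} {i j : B} (h : M i j = 2) : cc M i j = 0 := by
  unfold cc
  rw [h]
  push_cast
  exact Real.cos_pi_div_two

lemma cc_three {B : Type} {M : CoxeterMatrix B} {i j : B} (h : M i j = 3) : cc M i j = 1 / 2 := by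
  unfold cc
  rw [h]
  push_cast
  exact Real.cos_pi_div_three

lemma cc_four {B : Type} {M : CoxeterMatrix B} {i j : B} (h : M i j = 4) : cc M i j = √2 / 2 := by
  unfold cc
  rw [h]
  push_cast
  exact Real.cos_pi_div_four

/-- the golden ratio -/
noncomputable def gr : ℝ := (1 + √5) / 2

lemma cc_five {B : Type} {M : CoxeterMatrix B} {i j : B} (h : M i j = 5) : cc M i j = gr / 2 := by
  unfold cc gr
  rw [h]
  push_cast
  rw [Real.cos_pi_div_five]
  ring

lemma gr_sq : gr ^ 2 - gr - 1 = 0 := by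
  unfold gr
  have : √5 ^ 2 = (5 : ℝ) := Real.sq_sqrt (by norm_num)
  linear_combination this / 4

lemma gr_gt : (3 : ℝ) / 2 < gr := by
  unfold gr
  have : (2 : ℝ) < √5 := by
    rw [Real.lt_sqrt (by norm_num)]
    norm_num
  linarith

lemma gr_lt : gr < 2 := by
  unfold gr
  have : √5 < (3 : ℝ) := by
    rw [Real.sqrt_lt' (by norm_num)]
    norm_num
  linarith

lemma rt_sq : √2 ^ 2 - 2 = (0 : ℝ) := by
  rw [Real.sq_sqrt (by norm_num)]
  norm_num

lemma rt_gt : (7 : ℝ) / 5 < √2 := by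
  rw [Real.lt_sqrt (by norm_num)]
  norm_num

lemma rt_lt : √2 < (3 : ℝ) / 2 := by
  rw [Real.sqrt_lt' (by norm_num)]
  norm_num

end TL.H29
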